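import Mathlib
import Pool.Agent.Y854.GM.Win

/-! # Exceptional sets with a power saving near the members of thin sequences -/

set_option autoImplicit false

open Finset Filter Topology MeasureTheory

namespace Pool.Agent.Q34.Coll

/-- The exceptions at the level `y`: they decrease with `y` and number at most
`C (log x) ^ p x / y ^ c` up to `x`. -/
structure Law (bad : ℝ → ℕ → Prop) (p : ℕ) (c C : ℝ) : Prop where
  anti : ∀ (y y' : ℝ) (n : ℕ), y' ≤ y → bad y n → bad y' n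
  bound : ∀ x y : ℝ, 2 ≤ x → 1 ≤ y →
    ({n : ℕ | 1 ≤ n ∧ (n : ℝ) ≤ x ∧ bad y n}.ncard : ℝ) ≤ C * Real.log x ^ p * (x / y ^ c)

lemma finite_le (x : ℝ) (P : ℕ → Prop) : {n : ℕ | 1 ≤ n ∧ (n : ℝ) ≤ x ∧ P n}.Finite := by
  apply (Set.finite_Iic ⌊x⌋₊).subset
  rintro n ⟨-, h2, -⟩
  exact Nat.le_floor h2

/-- powers of logarithms -/
lemma log_pow_le (p : ℕ) {ε : ℝ} (hε : 0 < ε) : ∃ K : ℝ, 0 < K ∧ ∀ x : ℝ, 1 ≤ x →
    Real.log (2 * x) ^ p ≤ K * x ^ ε := by
  set ε' : ℝ := ε / (p + 1) with hε'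
  have hp : (0 : ℝ) < (p : ℝ) + 1 := by positivity
  have hε'0 : 0 < ε' := div_pos hε hp
  refine ⟨(2 ^ ε' / ε') ^ p, by positivity, fun x hx => ?_⟩
  have hx0 : 0 < x := by linarith
  have h1 : Real.log (2 * x) ≤ (2 * x) ^ ε' / ε' :=
    Real.log_le_rpow_div (by positivity) hε'0
  have h0 : 0 ≤ Real.log (2 * x) := Real.log_nonneg (by linarith)
  calc Real.log (2 * x) ^ p ≤ ((2 * x) ^ ε' / ε') ^ p := pow_le_pow_left₀ h0 h1 p
    _ = (2 ^ ε' / ε') ^ p * (x ^ ε') ^ p := by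
        rw [Real.mul_rpow two_pos.le hx0.le, ← mul_pow]
        congr 1
        ring
    _ ≤ (2 ^ ε' / ε') ^ p * x ^ ε := by
        refine mul_le_mul_of_nonneg_left ?_ (by positivity)
        rw [← Real.rpow_natCast, ← Real.rpow_mul hx0.le]
        refine Real.rpow_le_rpow_of_exponent_le hx ?_
        rw [hε', div_mul_eq_mul_div, div_le_iff₀ hp]
        nlinarith

open Classical in
/-- the exceptions at the level `m ^ δ` -/
lemma Law.count {bad : ℝ → ℕ → Prop} {p : ℕ} {c C : ℝ} (h : Law bad p c C) (hC : 0 ≤ C)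
    {δ : ℝ} (hδ : 0 ≤ δ) (hcδ : c * δ ≤ 1) {ε : ℝ} (hε : 0 < ε) : ∃ K : ℝ, ∀ X : ℕ, 1 ≤ X →
    (((Ioc 0 X).filter (fun m => m ∈ {m : ℕ | bad ((m : ℝ) ^ δ) m})).card : ℝ) ≤
      K * (X : ℝ) ^ (1 - c * δ + ε) := by
  obtain ⟨K, hK, hlog⟩ := log_pow_le (p + 1) hε
  refine ⟨4 * C * K, fun X hX => ?_⟩
  have hX1 : (1 : ℝ) ≤ X := by exact_mod_cast hX
  set L := Nat.log 2 X + 1 with hL
  set B : ℕ → Finset ℕ := fun j =>
    (finite_le ((2 : ℝ) ^ (j + 1)) (fun m => bad (((2 : ℝ) ^ j) ^ δ) m)).toFinset with hB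
  have hsub : (Ioc 0 X).filter (fun m => m ∈ {m : ℕ | bad ((m : ℝ) ^ δ) m}) ⊆
      (range L).biUnion B := by
    intro m hm
    rw [mem_filter, mem_Ioc] at hm
    obtain ⟨⟨hm0, hmX⟩, hbad⟩ := hm
    rw [mem_biUnion]
    refine ⟨Nat.log 2 m, ?_, ?_⟩
    · rw [mem_range, hL]
      exact Nat.lt_succ_of_le (Nat.log_mono_right hmX)
    · rw [hB, Set.Finite.mem_toFinset]
      refine ⟨hm0, ?_, h.anti _ _ _ ?_ hbad⟩
      · have h1 := Nat.lt_pow_succ_log_self (b := 2) (by norm_num) m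
        exact_mod_cast h1.le
      · have h1 := Nat.pow_log_le_self 2 (x := m) (by omega)
        refine Real.rpow_le_rpow (by positivity) ?_ hδ
        exact_mod_cast h1
  have h2X : ∀ j ∈ range L, ((2 : ℝ) ^ j) ≤ X := by
    intro j hj
    rw [mem_range, hL] at hj
    have h1 : 2 ^ j ≤ X := (Nat.pow_le_pow_right (by norm_num) (by omega)).trans
      (Nat.pow_log_le_self 2 (by omega))
    exact_mod_cast h1
  have hblock : ∀ j ∈ range L, ((B j).card : ℝ) ≤
      2 * C * Real.log (2 * X) ^ p * (X : ℝ) ^ (1 - c * δ) := by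
    intro j hj
    have h2j : (0 : ℝ) < 2 ^ j := by positivity
    have h2j1 : (1 : ℝ) ≤ 2 ^ j := one_le_pow₀ (by norm_num)
    have h1 := h.bound ((2 : ℝ) ^ (j + 1)) (((2 : ℝ) ^ j) ^ δ)
      (by rw [pow_succ]; linarith) (Real.one_le_rpow h2j1 hδ)
    rw [Set.ncard_eq_toFinset_card _ (finite_le _ _)] at h1
    refine h1.trans ?_
    have h3 : Real.log (2 ^ (j + 1)) ≤ Real.log (2 * X) := by
      refine Real.log_le_log (by positivity) ?_
      rw [pow_succ]
      linarith [h2X j hj]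
    have h4 : (0 : ℝ) ≤ Real.log (2 ^ (j + 1)) :=
      Real.log_nonneg (one_le_pow₀ (by norm_num))
    have h5 : (2 : ℝ) ^ (j + 1) / (((2 : ℝ) ^ j) ^ δ) ^ c = 2 * ((2 : ℝ) ^ j) ^ (1 - c * δ) := by
      rw [← Real.rpow_mul h2j.le, pow_succ, Real.rpow_sub h2j, Real.rpow_one, mul_comm c δ]
      ring
    have h6 : ((2 : ℝ) ^ j) ^ (1 - c * δ) ≤ (X : ℝ) ^ (1 - c * δ) :=
      Real.rpow_le_rpow h2j.le (h2X j hj) (by linarith)
    rw [h5]
    calc C * Real.log (2 ^ (j + 1)) ^ p * (2 * ((2 : ℝ) ^ j) ^ (1 - c * δ))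
        ≤ C * Real.log (2 * X) ^ p * (2 * (X : ℝ) ^ (1 - c * δ)) := by
          refine mul_le_mul (mul_le_mul_of_nonneg_left (pow_le_pow_left₀ h4 h3 p) hC)
            (by linarith) (by positivity) ?_
          have : 0 ≤ Real.log (2 * X) := h4.trans h3
          positivity
      _ = _ := by ring
  have hLb : (L : ℝ) ≤ 2 * Real.log (2 * X) := by
    have h1 : (2 : ℝ) ^ L ≤ 2 * X := by
      rw [hL, pow_succ]
      have h2 : 2 ^ Nat.log 2 X ≤ X := Nat.pow_log_le_self 2 (by omega)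
      have h3 : ((2 : ℝ) ^ Nat.log 2 X) ≤ X := by exact_mod_cast h2
      linarith
    have h2 := Real.log_le_log (by positivity) h1
    rw [Real.log_pow] at h2
    have h3 : (1 : ℝ) / 2 < Real.log 2 := by
      have := Real.log_two_gt_d9
      linarith
    nlinarith [Nat.cast_nonneg (α := ℝ) L]
  have hlog0 : 0 ≤ Real.log (2 * (X : ℝ)) := Real.log_nonneg (by linarith)
  calc (((Ioc 0 X).filter (fun m => m ∈ {m : ℕ | bad ((m : ℝ) ^ δ) m})).card : ℝ)
      ≤ ∑ j ∈ range L, ((B j).card : ℝ) := by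
        exact_mod_cast (card_le_card hsub).trans card_biUnion_le
    _ ≤ ∑ _j ∈ range L, 2 * C * Real.log (2 * X) ^ p * (X : ℝ) ^ (1 - c * δ) :=
        sum_le_sum hblock
    _ = (L : ℝ) * (2 * C * Real.log (2 * X) ^ p * (X : ℝ) ^ (1 - c * δ)) := by
        rw [sum_const, card_range, nsmul_eq_mul]
    _ ≤ (2 * Real.log (2 * X)) * (2 * C * Real.log (2 * X) ^ p * (X : ℝ) ^ (1 - c * δ)) :=
        mul_le_mul_of_nonneg_right hLb (by positivity)
    _ = 4 * C * Real.log (2 * X) ^ (p + 1) * (X : ℝ) ^ (1 - c * δ) := by ring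
    _ ≤ 4 * C * (K * (X : ℝ) ^ ε) * (X : ℝ) ^ (1 - c * δ) := by
        refine mul_le_mul_of_nonneg_right (mul_le_mul_of_nonneg_left (hlog _ hX1) (by positivity))
          (by positivity)
    _ = _ := by
        rw [Real.rpow_add (by linarith)]
        ring

/-- **Hausdorff dimension.** -/
theorem Law.windows {bad : ℝ → ℕ → Prop} {p : ℕ} {c C : ℝ} (h : Law bad p c C) (hC : 0 ≤ C)
    {δ : ℝ} (hδ : 0 ≤ δ) (hcδ : c * δ ≤ 1) {v : ℕ → ℝ} {τ θ : ℝ} (hv : ∀ n, 1 ≤ v n)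
    (hτ : 0 ≤ τ) (hE : Y854.GM.ExpLe v τ) (hθ : θ < 1) :
    ∃ E : Set ℝ, dimH E ≤ ENNReal.ofReal ((1 - c * δ + τ) / (1 - θ)) ∧ ∀ α : ℝ, 0 < α → α ∉ E →
      ∃ n₀ : ℕ, ∀ n : ℕ, n₀ ≤ n → ∀ m : ℕ, |(m : ℝ) - α * v n| ≤ (v n) ^ θ →
        0 < m ∧ ¬ bad ((m : ℝ) ^ δ) m := by
  classical
  exact Y854.GM.win_nat {m : ℕ | bad ((m : ℝ) ^ δ) m} hv hτ hE (by linarith) hθ
    (fun ε hε => h.count hC hδ hcδ hε)

/-- **Almost all multipliers.** -/
theorem Law.ae {bad : ℝ → ℕ → Prop} {p : ℕ} {c C : ℝ} (h : Law bad p c C) (hC : 0 ≤ C)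
    {v w y : ℕ → ℝ} (hv : ∀ n, 1 ≤ v n) (hw0 : ∀ n, 0 ≤ w n) (hw : ∀ n, w n ≤ v n)
    (hy : ∀ n, 1 ≤ y n)
    (hsum : Summable fun n => w n * (1 + Real.log (v n)) ^ p / (y n) ^ c) :
    ∀ᵐ α : ℝ, 0 < α → ∀ᶠ n in atTop, ∀ m : ℕ, 1 ≤ m → |(m : ℝ) - α * v n| ≤ w n →
      ¬ bad (y n) m := by
  classical
  set S : ℕ → ℕ → Set ℝ := fun A n => {α : ℝ | 0 < α ∧ α ≤ A + 1 ∧ ∃ m : ℕ, 1 ≤ m ∧
    |(m : ℝ) - α * v n| ≤ w n ∧ bad (y n) m} with hS
  have hA : ∀ A : ℕ, ∀ᵐ α : ℝ, ∀ᶠ n in atTop, α ∉ S A n := by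
    intro A
    refine MeasureTheory.ae_eventually_notMem ?_
    set K : ℝ := 2 * C * (A + 2) * (1 + Real.log (A + 2)) ^ p with hK
    have hA0 : (0 : ℝ) ≤ A := Nat.cast_nonneg A
    have hlA : 0 ≤ Real.log ((A : ℝ) + 2) := Real.log_nonneg (by linarith)
    have hK0 : 0 ≤ K := by positivity
    have hvol : ∀ n, volume (S A n) ≤
        ENNReal.ofReal (K * (w n * (1 + Real.log (v n)) ^ p / (y n) ^ c)) := by
      intro n
      have hv1 := hv n
      have hv0 : 0 < v n := by linarith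
      have hlv : 0 ≤ Real.log (v n) := Real.log_nonneg hv1
      set x : ℝ := ((A : ℝ) + 2) * v n with hx
      have hx2 : 2 ≤ x := by rw [hx]; nlinarith
      set Bd : Finset ℕ := (finite_le x (fun m => bad (y n) m)).toFinset with hBd
      have hsub : S A n ⊆ ⋃ m ∈ Bd, Set.Icc (((m : ℝ) - w n) / v n) (((m : ℝ) + w n) / v n) := by
        rintro α ⟨hα0, hαA, m, hm1, hm2, hm3⟩
        have h1 := abs_le.1 hm2
        refine Set.mem_iUnion₂.2 ⟨m, ?_, ?_⟩
        · rw [hBd, Set.Finite.mem_toFinset]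
          refine ⟨hm1, ?_, hm3⟩
          have h2 : (m : ℝ) ≤ α * v n + w n := by linarith [h1.2]
          have h3 : α * v n ≤ (A + 1) * v n := mul_le_mul_of_nonneg_right hαA hv0.le
          rw [hx]
          nlinarith [hw n]
        · rw [Set.mem_Icc, div_le_iff₀ hv0, le_div_iff₀ hv0]
          constructor
          · linarith [h1.2]
          · linarith [h1.1]
      have hcard : (Bd.card : ℝ) ≤ C * Real.log x ^ p * (x / (y n) ^ c) := by
        have h1 := h.bound x (y n) hx2 (hy n)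
        rwa [Set.ncard_eq_toFinset_card _ (finite_le _ _)] at h1
      have hlogx : Real.log x ≤ (1 + Real.log (A + 2)) * (1 + Real.log (v n)) := by
        rw [hx, Real.log_mul (by linarith) hv0.ne']
        nlinarith
      have hlogx0 : 0 ≤ Real.log x := Real.log_nonneg (by linarith)
      have hyc : 0 < (y n) ^ c := Real.rpow_pos_of_pos (by linarith [hy n]) c
      calc volume (S A n) ≤ ∑ m ∈ Bd, volume (Set.Icc (((m : ℝ) - w n) / v n)
            (((m : ℝ) + w n) / v n)) :=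
            (measure_mono hsub).trans (measure_biUnion_finset_le _ _)
        _ = ∑ _m ∈ Bd, ENNReal.ofReal (2 * w n / v n) := by
            refine sum_congr rfl fun m _ => ?_
            rw [Real.volume_Icc]
            congr 1
            ring
        _ = ENNReal.ofReal ((Bd.card : ℝ) * (2 * w n / v n)) := by
            rw [sum_const, nsmul_eq_mul, ENNReal.ofReal_mul (Nat.cast_nonneg _),
              ENNReal.ofReal_natCast]
        _ ≤ _ := by
            refine ENNReal.ofReal_le_ofReal ?_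
            have h1 : 0 ≤ 2 * w n / v n := div_nonneg (by linarith [hw0 n]) hv0.le
            calc (Bd.card : ℝ) * (2 * w n / v n)
                ≤ (C * ((1 + Real.log (A + 2)) * (1 + Real.log (v n))) ^ p *
                    (x / (y n) ^ c)) * (2 * w n / v n) := by
                  refine mul_le_mul_of_nonneg_right (hcard.trans ?_) h1
                  refine mul_le_mul_of_nonneg_right (mul_le_mul_of_nonneg_left
                    (pow_le_pow_left₀ hlogx0 hlogx p) hC) (by positivity)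
              _ = K * (w n * (1 + Real.log (v n)) ^ p / (y n) ^ c) := by
                  rw [hK, hx, mul_pow]
                  field_simp
    have h2 : Summable fun n => K * (w n * (1 + Real.log (v n)) ^ p / (y n) ^ c) :=
      hsum.mul_left K
    refine ne_top_of_le_ne_top ?_ (ENNReal.tsum_le_tsum hvol)
    rw [← ENNReal.ofReal_tsum_of_nonneg (fun n => ?_) h2]
    · exact ENNReal.ofReal_ne_top
    · have hlv : 0 ≤ Real.log (v n) := Real.log_nonneg (hv n)
      have hyc : 0 < (y n) ^ c := Real.rpow_pos_of_pos (by linarith [hy n]) c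
      have := hw0 n
      positivity
  have hall : ∀ᵐ α : ℝ, ∀ A : ℕ, ∀ᶠ n in atTop, α ∉ S A n := ae_all_iff.2 hA
  filter_upwards [hall] with α hα hα0
  have h1 := hα ⌈α⌉₊
  filter_upwards [h1] with n hn m hm1 hm2 hbad
  exact hn ⟨hα0, (Nat.le_ceil α).trans (by linarith), m, hm1, hm2, hbad⟩

end Pool.Agent.Q34.Coll
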